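import Pool.Agent.P.MP_fb2f7f_lc.ZF.Main

namespace Pool.Agent.Results.MP_fb2f7f_lc.ZFModel

open Pool.Agent.Lib.PermModel

theorem result : ∃ (M : Type 1) (S : Str M), S.IsZFA ∧ (∀ x, ¬ S.atm x) ∧
    (∀ X, ¬ S.IsFin X → S.SFI X) ∧ ¬ ∀ X, ¬ S.IsFin X → S.DFI X :=
  Pool.Agent.P.MP_fb2f7f_lc.ZF.main

end Pool.Agent.Results.MP_fb2f7f_lc.ZFModel
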